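import Pool.Agent.Q122.MB.Stm
import Pool.Agent.Erdos456.Mertens

/-!
# Project MB, job SQX: the squares in the even powers of the resonator
-/

set_option autoImplicit false
set_option linter.all false

namespace Pool.Agent.Q177.MB

open Finset Filter Topology Pool.Agent.Q122.MB

noncomputable section

theorem gg_nonneg (j : ℕ) : 0 ≤ gg j := by
  unfold gg
  split_ifs <;> norm_num

theorem g_nonneg (n : ℕ) : 0 ≤ g n := prod_nonneg fun p _ => gg_nonneg _

theorem g_one : g 1 = 1 := by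
  unfold g
  rw [Nat.primeFactors_one, prod_empty]

theorem g_mul {m n : ℕ} (h : m.Coprime n) : g (m * n) = g m * g n := by
  by_cases hm : m = 0
  · subst hm
    have : n = 1 := by rwa [Nat.coprime_zero_left] at h
    rw [this, mul_one, g_one, mul_one]
  by_cases hn : n = 0
  · subst hn
    have : m = 1 := by rwa [Nat.coprime_zero_right] at h
    rw [this, one_mul, g_one, one_mul]
  unfold g
  rw [Nat.Coprime.primeFactors_mul h, prod_union h.disjoint_primeFactors]
  congr 1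
  · refine prod_congr rfl fun p hp => ?_
    rw [Nat.factorization_eq_of_coprime_left h (Nat.mem_primeFactors_iff_mem_primeFactorsList.1 hp)]
  · refine prod_congr rfl fun p hp => ?_
    rw [Nat.factorization_eq_of_coprime_right h (Nat.mem_primeFactors_iff_mem_primeFactorsList.1 hp)]

theorem g_pp {p : ℕ} (hp : p.Prime) (a : ℕ) : g (p ^ a) = gg a := by
  by_cases ha : a = 0
  · rw [ha, pow_zero, g_one]
    rfl
  · unfold g
    rw [Nat.primeFactors_prime_pow ha hp, prod_singleton, hp.factorization_pow, Finsupp.single_eq_same]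

/-- the multiplicative majorant -/
def GG : ArithmeticFunction ℝ := ⟨fun n => if Odd n then g n / Real.sqrt n else 0, by simp⟩

theorem GG_apply (n : ℕ) : GG n = if Odd n then g n / Real.sqrt n else 0 := rfl

theorem GG_nonneg (n : ℕ) : 0 ≤ GG n := by
  rw [GG_apply]
  split_ifs
  · exact div_nonneg (g_nonneg n) (Real.sqrt_nonneg _)
  · exact le_rfl

theorem GG_mult : GG.IsMultiplicative := by
  refine ⟨?_, ?_⟩
  · rw [GG_apply, if_pos odd_one, g_one]
    simp
  · intro m n h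
    rw [GG_apply, GG_apply, GG_apply]
    by_cases hm : Odd m
    · by_cases hn : Odd n
      · rw [if_pos (hm.mul hn), if_pos hm, if_pos hn, g_mul h, Nat.cast_mul,
          Real.sqrt_mul (Nat.cast_nonneg m), mul_div_mul_comm]
      · rw [if_neg hn, mul_zero, if_neg fun h => hn (Nat.odd_mul.1 h).2]
    · rw [if_neg hm, zero_mul, if_neg fun h => hm (Nat.odd_mul.1 h).1]

theorem pw_mult (n : ℕ) : (GG ^ n).IsMultiplicative := by
  induction n with
  | zero =>
    rw [pow_zero]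
    exact ArithmeticFunction.isMultiplicative_one
  | succ n ih =>
    rw [pow_succ]
    exact ih.mul GG_mult

theorem pw_nonneg (n m : ℕ) : 0 ≤ (GG ^ n) m := by
  induction n generalizing m with
  | zero =>
    rw [pow_zero, ArithmeticFunction.one_apply]
    split_ifs <;> norm_num
  | succ n ih =>
    rw [pow_succ, ArithmeticFunction.mul_apply]
    exact sum_nonneg fun x _ => mul_nonneg (ih _) (GG_nonneg _)

theorem GN_nonneg (N0 n : ℕ) : 0 ≤ GN N0 n := by
  show 0 ≤ (if 1 ≤ n ∧ n ≤ N0 ∧ Odd n then g n / Real.sqrt n else 0)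
  split_ifs
  · exact div_nonneg (g_nonneg n) (Real.sqrt_nonneg _)
  · exact le_rfl

theorem GN_le (N0 n : ℕ) : GN N0 n ≤ GG n := by
  rw [GG_apply]
  show (if 1 ≤ n ∧ n ≤ N0 ∧ Odd n then g n / Real.sqrt n else 0) ≤ _
  by_cases h : 1 ≤ n ∧ n ≤ N0 ∧ Odd n
  · rw [if_pos h, if_pos h.2.2]
  · rw [if_neg h]
    split_ifs
    · exact div_nonneg (g_nonneg n) (Real.sqrt_nonneg _)
    · exact le_rfl

theorem Gp_nonneg (N0 j m : ℕ) : 0 ≤ Gp N0 j m := by
  unfold Gp
  induction j generalizing m with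
  | zero =>
    rw [pow_zero, ArithmeticFunction.one_apply]
    split_ifs <;> norm_num
  | succ n ih =>
    rw [pow_succ, ArithmeticFunction.mul_apply]
    exact sum_nonneg fun x _ => mul_nonneg (ih _) (GN_nonneg _ _)

theorem Gp_le (N0 j m : ℕ) : Gp N0 j m ≤ (GG ^ j) m := by
  induction j generalizing m with
  | zero => exact le_rfl
  | succ n ih =>
    show (GN N0 ^ (n + 1)) m ≤ (GG ^ (n + 1)) m
    rw [pow_succ, pow_succ, ArithmeticFunction.mul_apply, ArithmeticFunction.mul_apply]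
    exact sum_le_sum fun x _ => mul_le_mul (ih _) (GN_le _ _) (GN_nonneg _ _) (pw_nonneg _ _)

theorem Gp_smooth (N0 j m : ℕ) (h : Gp N0 j m ≠ 0) : m ∈ Nat.smoothNumbers (N0 + 1) := by
  induction j generalizing m with
  | zero =>
    unfold Gp at h
    rw [pow_zero, ArithmeticFunction.one_apply] at h
    have hm : m = 1 := by
      by_contra hne
      rw [if_neg hne] at h
      exact h rfl
    rw [hm, Nat.mem_smoothNumbers]
    exact ⟨one_ne_zero, fun p hp => by simp at hp⟩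
  | succ n ih =>
    unfold Gp at h
    rw [pow_succ, ArithmeticFunction.mul_apply] at h
    obtain ⟨x, hx, hx2⟩ := exists_ne_zero_of_sum_ne_zero h
    rw [Nat.mem_divisorsAntidiagonal] at hx
    have h1 := ih x.1 (left_ne_zero_of_mul hx2)
    have h2 : GN N0 x.2 ≠ 0 := right_ne_zero_of_mul hx2
    have h3 : 1 ≤ x.2 ∧ x.2 ≤ N0 := by
      by_contra hcon
      apply h2
      show (if 1 ≤ x.2 ∧ x.2 ≤ N0 ∧ Odd x.2 then g x.2 / Real.sqrt x.2 else 0) = 0
      rw [if_neg fun h => hcon ⟨h.1, h.2.1⟩]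
    have h4 : x.2 ∈ Nat.smoothNumbers (N0 + 1) := by
      rw [Nat.mem_smoothNumbers]
      refine ⟨by omega, fun p hp => ?_⟩
      have := Nat.le_of_mem_primeFactorsList hp
      omega
    rw [← hx.1]
    exact Nat.mul_mem_smoothNumbers h1 h4

theorem mul_prime_pow (A B : ArithmeticFunction ℝ) {p : ℕ} (hp : p.Prime) (m : ℕ) :
    (A * B) (p ^ m) = ∑ x ∈ antidiagonal m, A (p ^ x.1) * B (p ^ x.2) := by
  rw [ArithmeticFunction.mul_apply]
  rw [Nat.sum_divisorsAntidiagonal (fun i j => A i * B j), Nat.divisors_prime_pow hp, sum_map]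
  simp only [Function.Embedding.coeFn_mk]
  rw [Nat.sum_antidiagonal_eq_sum_range_succ (fun i j => A (p ^ i) * B (p ^ j))]
  refine sum_congr rfl fun i hi => ?_
  rw [mem_range] at hi
  rw [Nat.pow_div (by omega) hp.pos]

/-- the coefficients of `(1 + x/2 + 3 x²/8)^n` -/
def cc : ℕ → ℕ → ℝ
  | 0, a => if a = 0 then 1 else 0
  | n + 1, a => ∑ x ∈ antidiagonal a, cc n x.1 * gg x.2

theorem cc_succ (n a : ℕ) : cc (n + 1) a = ∑ x ∈ antidiagonal a, cc n x.1 * gg x.2 := rfl

theorem cc_nonneg (n a : ℕ) : 0 ≤ cc n a := by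
  induction n generalizing a with
  | zero =>
    show 0 ≤ (if a = 0 then (1 : ℝ) else 0)
    split_ifs <;> norm_num
  | succ n ih =>
    rw [cc_succ]
    exact sum_nonneg fun x _ => mul_nonneg (ih _) (gg_nonneg _)

theorem sum_gg (N : ℕ) : ∑ j ∈ range N, gg j ≤ 2 := by
  have h1 : ∑ j ∈ range N, gg j ≤ ∑ j ∈ range (3 + N), gg j :=
    sum_le_sum_of_subset_of_nonneg (range_mono (by omega)) fun j _ _ => gg_nonneg j
  refine h1.trans ?_
  rw [sum_range_add]
  have h2 : ∑ j ∈ range N, gg (3 + j) = 0 := by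
    refine sum_eq_zero fun j _ => ?_
    unfold gg
    rw [if_neg (by omega), if_neg (by omega), if_neg (by omega)]
  rw [h2, sum_range_succ, sum_range_succ, sum_range_succ, range_zero, sum_empty]
  unfold gg
  norm_num

theorem cc_le (n a : ℕ) : cc n a ≤ 2 ^ n := by
  induction n generalizing a with
  | zero =>
    show (if a = 0 then (1 : ℝ) else 0) ≤ 2 ^ 0
    split_ifs <;> norm_num
  | succ n ih =>
    rw [cc_succ]
    calc ∑ x ∈ antidiagonal a, cc n x.1 * gg x.2 ≤ ∑ x ∈ antidiagonal a, 2 ^ n * gg x.2 :=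
          sum_le_sum fun x _ => mul_le_mul_of_nonneg_right (ih _) (gg_nonneg _)
      _ = 2 ^ n * ∑ j ∈ range (a + 1), gg j := by
          rw [← mul_sum]
          congr 1
          rw [Nat.sum_antidiagonal_eq_sum_range_succ (fun i j => gg j), ← sum_range_reflect]
          refine sum_congr rfl fun j hj => ?_
          rw [mem_range] at hj
          congr 1
          omega
      _ ≤ 2 ^ n * 2 := mul_le_mul_of_nonneg_left (sum_gg _) (by positivity)
      _ = 2 ^ (n + 1) := by rw [pow_succ]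

theorem cc_zero (n a : ℕ) (h : 2 * n < a) : cc n a = 0 := by
  induction n generalizing a with
  | zero =>
    show (if a = 0 then (1 : ℝ) else 0) = 0
    rw [if_neg (by omega)]
  | succ n ih =>
    rw [cc_succ]
    refine sum_eq_zero fun x hx => ?_
    rw [Finset.HasAntidiagonal.mem_antidiagonal] at hx
    by_cases h2 : x.2 ≤ 2
    · rw [ih x.1 (by omega), zero_mul]
    · have : gg x.2 = 0 := by
        unfold gg
        rw [if_neg (by omega), if_neg (by omega), if_neg (by omega)]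
      rw [this, mul_zero]

theorem cc0 (n : ℕ) : cc n 0 = 1 := by
  induction n with
  | zero => rfl
  | succ n ih =>
    rw [cc_succ]
    simp [ih, gg]

theorem cc1 (n : ℕ) : cc n 1 = n / 2 := by
  induction n with
  | zero =>
    show (if (1 : ℕ) = 0 then (1 : ℝ) else 0) = _
    simp
  | succ n ih =>
    rw [cc_succ, Nat.sum_antidiagonal_eq_sum_range_succ (fun i j => cc n i * gg j), sum_range_succ,
      sum_range_succ, range_zero, sum_empty, ih, cc0]
    unfold gg
    norm_num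
    ring

theorem cc2 (n : ℕ) : cc n 2 = n * (n + 2) / 8 := by
  induction n with
  | zero =>
    show (if (2 : ℕ) = 0 then (1 : ℝ) else 0) = _
    simp
  | succ n ih =>
    rw [cc_succ, Nat.sum_antidiagonal_eq_sum_range_succ (fun i j => cc n i * gg j), sum_range_succ,
      sum_range_succ, sum_range_succ, range_zero, sum_empty, ih, cc0, cc1]
    unfold gg
    norm_num
    ring

theorem GG_pp {p : ℕ} (hp : p.Prime) (h2 : p ≠ 2) (a : ℕ) : GG (p ^ a) = gg a / (Real.sqrt p) ^ a := by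
  have hodd : Odd p := hp.odd_of_ne_two h2
  rw [GG_apply, if_pos hodd.pow, g_pp hp]
  congr 1
  rw [Nat.cast_pow, Real.sqrt_eq_rpow, Real.sqrt_eq_rpow, ← Real.rpow_natCast, ← Real.rpow_natCast,
    ← Real.rpow_mul (Nat.cast_nonneg p), ← Real.rpow_mul (Nat.cast_nonneg p), mul_comm]

theorem pw_pp {p : ℕ} (hp : p.Prime) (h2 : p ≠ 2) (n a : ℕ) :
    (GG ^ n) (p ^ a) = cc n a / (Real.sqrt p) ^ a := by
  induction n generalizing a with
  | zero =>
    rw [pow_zero, ArithmeticFunction.one_apply]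
    show _ = (if a = 0 then (1 : ℝ) else 0) / _
    by_cases ha : a = 0
    · rw [ha, pow_zero, if_pos rfl, if_pos rfl, pow_zero, div_one]
    · rw [if_neg ha, zero_div, if_neg]
      intro h3
      have := Nat.one_lt_pow ha hp.one_lt
      omega
  | succ n ih =>
    rw [pow_succ, mul_prime_pow _ _ hp, cc_succ, sum_div]
    refine sum_congr rfl fun x hx => ?_
    rw [Finset.HasAntidiagonal.mem_antidiagonal] at hx
    rw [ih, GG_pp hp h2, ← hx, pow_add, mul_div_mul_comm]

theorem pw_two (n a : ℕ) (ha : 1 ≤ a) : (GG ^ n) (2 ^ a) = 0 := by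
  induction n generalizing a with
  | zero =>
    rw [pow_zero, ArithmeticFunction.one_apply, if_neg]
    intro h3
    have := Nat.one_lt_pow (show a ≠ 0 by omega) (show 1 < 2 by norm_num)
    omega
  | succ n ih =>
    rw [pow_succ, mul_prime_pow _ _ Nat.prime_two]
    refine sum_eq_zero fun x hx => ?_
    rw [Finset.HasAntidiagonal.mem_antidiagonal] at hx
    by_cases h1 : 1 ≤ x.1
    · rw [ih x.1 h1, zero_mul]
    · have h2 : GG (2 ^ x.2) = 0 := by
        rw [GG_apply, if_neg]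
        rw [Nat.not_odd_iff_even]
        exact (even_two).pow_of_ne_zero (by omega)
      rw [h2, mul_zero]

/-- the values at the squares -/
def hh (k j : ℕ) : ℝ := (GG ^ (2 * k)) (j ^ 2)

theorem hh_nonneg (k j : ℕ) : 0 ≤ hh k j := pw_nonneg _ _

theorem hh_one (k : ℕ) : hh k 1 = 1 := by
  unfold hh
  rw [one_pow]
  exact (pw_mult _).1

theorem hh_mul (k : ℕ) {m n : ℕ} (h : m.Coprime n) : hh k (m * n) = hh k m * hh k n := by
  unfold hh
  rw [mul_pow]
  exact (pw_mult _).2 (h.pow 2 2)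

theorem hh_pp (k : ℕ) {p : ℕ} (hp : p.Prime) (h2 : p ≠ 2) (i : ℕ) :
    hh k (p ^ i) = cc (2 * k) (2 * i) / (p : ℝ) ^ i := by
  unfold hh
  rw [← pow_mul, pw_pp hp h2, mul_comm i 2, pow_mul, Real.sq_sqrt (Nat.cast_nonneg p)]

theorem hh_zero (k : ℕ) {p : ℕ} (hp : p.Prime) (i : ℕ) (hi : i ∉ range (2 * k + 1)) :
    hh k (p ^ i) = 0 := by
  rw [mem_range] at hi
  by_cases h2 : p = 2
  · subst h2
    unfold hh
    rw [← pow_mul]
    exact pw_two _ _ (by omega)
  · rw [hh_pp k hp h2, cc_zero _ _ (by omega), zero_div]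

theorem hh_tsum (k : ℕ) (hk : 1 ≤ k) {p : ℕ} (hp : p.Prime) :
    ∑' i : ℕ, hh k (p ^ i) ≤ 1 + ((k * (k + 1) / 2 : ℕ) : ℝ) / p + (2 * k * 4 ^ k : ℝ) / (p : ℝ) ^ 2 := by
  rw [tsum_eq_sum fun i hi => hh_zero k hp i hi]
  have hp0 : (0 : ℝ) < p := by exact_mod_cast hp.pos
  have hp1 : (1 : ℝ) ≤ p := by exact_mod_cast hp.one_lt.le
  obtain ⟨m, hm⟩ : ∃ m, 2 * k + 1 = m + 2 := ⟨2 * k - 1, by omega⟩
  rw [hm, sum_range_succ', sum_range_succ']
  have h0 : hh k (p ^ 0) = 1 := by rw [pow_zero, hh_one]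
  have h1 : hh k (p ^ (0 + 1)) ≤ ((k * (k + 1) / 2 : ℕ) : ℝ) / p := by
    by_cases h2 : p = 2
    · have : hh k (p ^ (0 + 1)) = 0 := by
        subst h2
        unfold hh
        rw [← pow_mul]
        exact pw_two _ _ (by norm_num)
      rw [this]
      positivity
    · rw [hh_pp k hp h2]
      have e1 : cc (2 * k) (2 * (0 + 1)) = ((k * (k + 1) / 2 : ℕ) : ℝ) := by
        have e2 : ((k * (k + 1) / 2 : ℕ) : ℝ) = (k : ℝ) * (k + 1) / 2 := by
          rw [Nat.cast_div (Nat.even_mul_succ_self k).two_dvd (by norm_num)]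
          push_cast
          ring
        rw [e2, show 2 * (0 + 1) = 2 by norm_num, cc2]
        push_cast
        ring
      rw [e1, zero_add, pow_one]
  have h3 : ∑ i ∈ range m, hh k (p ^ (i + 1 + 1)) ≤ (2 * k * 4 ^ k : ℝ) / (p : ℝ) ^ 2 := by
    have h4 : ∀ i ∈ range m, hh k (p ^ (i + 1 + 1)) ≤ 4 ^ k / (p : ℝ) ^ 2 := by
      intro i _
      by_cases h2 : p = 2
      · have : hh k (p ^ (i + 1 + 1)) = 0 := by
          subst h2
          unfold hh
          rw [← pow_mul]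
          exact pw_two _ _ (by omega)
        rw [this]
        positivity
      · rw [hh_pp k hp h2]
        have e1 : cc (2 * k) (2 * (i + 1 + 1)) ≤ 4 ^ k := by
          refine (cc_le _ _).trans (le_of_eq ?_)
          rw [pow_mul]
          norm_num
        have e2 : (p : ℝ) ^ 2 ≤ (p : ℝ) ^ (i + 1 + 1) := pow_le_pow_right₀ hp1 (by omega)
        exact div_le_div₀ (by positivity) e1 (by positivity) e2
    refine (sum_le_sum h4).trans ?_
    rw [sum_const, card_range, nsmul_eq_mul]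
    have h5 : (m : ℝ) ≤ 2 * k := by
      have : m ≤ 2 * k := by omega
      exact_mod_cast this
    have h6 : (0 : ℝ) ≤ 4 ^ k / (p : ℝ) ^ 2 := by positivity
    calc (m : ℝ) * (4 ^ k / (p : ℝ) ^ 2) ≤ (2 * k) * (4 ^ k / (p : ℝ) ^ 2) :=
          mul_le_mul_of_nonneg_right h5 h6
      _ = (2 * k * 4 ^ k : ℝ) / (p : ℝ) ^ 2 := by ring
  rw [h0]
  linarith

theorem sum_inv : ∃ C : ℝ, ∀ N : ℕ, 1 ≤ N →
    ∑ p ∈ (N + 1).primesBelow, (1 : ℝ) / p ≤ Real.log (1 + Real.log N) + C := by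
  obtain ⟨C, hC⟩ := Pool.Agent.Erdos456.Mert.mertens_inv
  have hset : ∀ N : ℕ, (N + 1).primesBelow = (Finset.Icc 1 N).filter Nat.Prime := by
    intro N
    ext p
    rw [Nat.mem_primesBelow, mem_filter, mem_Icc]
    constructor
    · rintro ⟨h1, h2⟩
      exact ⟨⟨h2.one_lt.le, by omega⟩, h2⟩
    · rintro ⟨h1, h2⟩
      exact ⟨by omega, h2⟩
  refine ⟨|C| + (∑ p ∈ (Finset.Icc 1 3).filter Nat.Prime, (1 : ℝ) / p), fun N hN => ?_⟩
  have hL : 0 ≤ Real.log N := Real.log_nonneg (by exact_mod_cast hN)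
  have hS : 0 ≤ ∑ p ∈ (Finset.Icc 1 3).filter Nat.Prime, (1 : ℝ) / p :=
    sum_nonneg fun p _ => by positivity
  rw [hset]
  by_cases h3 : 3 ≤ N
  · have h1 := (abs_le.1 (hC N h3)).2
    have hL1 : 0 < Real.log N := Real.log_pos (by exact_mod_cast (by omega : 1 < N))
    have h2 : Real.log (Real.log N) ≤ Real.log (1 + Real.log N) :=
      Real.log_le_log hL1 (by linarith)
    have h4 := le_abs_self C
    linarith
  · have h1 : ∑ p ∈ (Finset.Icc 1 N).filter Nat.Prime, (1 : ℝ) / p ≤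
        ∑ p ∈ (Finset.Icc 1 3).filter Nat.Prime, (1 : ℝ) / p := by
      refine sum_le_sum_of_subset_of_nonneg ?_ fun p _ _ => by positivity
      intro p hp
      rw [mem_filter, mem_Icc] at hp ⊢
      exact ⟨⟨hp.1.1, by omega⟩, hp.2⟩
    have h2 : 0 ≤ Real.log (1 + Real.log N) := Real.log_nonneg (by linarith)
    have h4 := abs_nonneg C
    linarith

theorem t_SQX : S_SQX := by
  intro k hk
  obtain ⟨C1, hC1⟩ := sum_inv
  obtain ⟨K, hK⟩ : ∃ K : ℕ, K = k * (k + 1) / 2 := ⟨_, rfl⟩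
  obtain ⟨D, hD⟩ : ∃ D : ℝ, D = 2 * k * 4 ^ k := ⟨_, rfl⟩
  have hD0 : 0 ≤ D := by rw [hD]; positivity
  have hs : Summable (fun n : ℕ => 1 / (n : ℝ) ^ 2) := Real.summable_one_div_nat_pow.2 (by norm_num)
  obtain ⟨S, hS⟩ : ∃ S : ℝ, S = ∑' n : ℕ, 1 / (n : ℝ) ^ 2 := ⟨_, rfl⟩
  refine ⟨Real.exp (K * C1 + D * S), Real.exp_pos _, fun N0 hN0 => ?_⟩
  rw [← hK]
  have hL : 0 ≤ Real.log N0 := Real.log_nonneg (by exact_mod_cast hN0)
  -- the Euler product
  obtain ⟨hE1, hE2⟩ := EulerProduct.summable_and_hasSum_smoothNumbers_prod_primesBelow_tsum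
    (f := hh k) (hh_one k) (fun {m n} h => hh_mul k h)
    (fun {p} hp => summable_of_ne_finset_zero (s := range (2 * k + 1)) fun i hi => by
      rw [hh_zero k hp i hi, norm_zero]) (N0 + 1)
  obtain ⟨F, hF⟩ : ∃ F : Finset ℕ, F = (Icc 1 (N0 ^ (2 * k))).filter (fun m => Odd m ∧ IsSquare m) :=
    ⟨_, rfl⟩
  rw [← hF]
  have hsq : ∀ m ∈ F, (Nat.sqrt m) ^ 2 = m := by
    intro m hm
    rw [hF, mem_filter] at hm
    obtain ⟨r, hr⟩ := hm.2.2
    rw [hr, Nat.sqrt_eq, sq]
  have h1 : ∑ m ∈ F, Gp N0 (2 * k) m ≤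
      ∑ m ∈ F.filter (fun m => m ∈ Nat.smoothNumbers (N0 + 1)), hh k (Nat.sqrt m) := by
    rw [sum_filter]
    refine sum_le_sum fun m hm => ?_
    by_cases h2 : m ∈ Nat.smoothNumbers (N0 + 1)
    · rw [if_pos h2]
      unfold hh
      rw [hsq m hm]
      exact Gp_le _ _ _
    · rw [if_neg h2]
      by_contra hne
      exact h2 (Gp_smooth N0 (2 * k) m (by
        intro h0
        rw [h0] at hne
        exact hne le_rfl))
  obtain ⟨J, hJ⟩ : ∃ J : Finset ℕ, J = (F.filter (fun m => m ∈ Nat.smoothNumbers (N0 + 1))).image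
    Nat.sqrt := ⟨_, rfl⟩
  have h2 : ∑ m ∈ F.filter (fun m => m ∈ Nat.smoothNumbers (N0 + 1)), hh k (Nat.sqrt m) =
      ∑ j ∈ J, hh k j := by
    rw [hJ, sum_image]
    intro m hm m' hm' h
    have e1 := hsq m (mem_filter.1 hm).1
    have e2 := hsq m' (mem_filter.1 hm').1
    rw [← e1, ← e2]
    exact congrArg (fun t => t ^ 2) h
  have hJs : ∀ j ∈ J, j ∈ Nat.smoothNumbers (N0 + 1) := by
    intro j hj
    rw [hJ, mem_image] at hj
    obtain ⟨m, hm, rfl⟩ := hj
    rw [mem_filter] at hm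
    have e1 := hsq m hm.1
    refine Nat.mem_smoothNumbers_of_dvd hm.2 ?_
    exact ⟨Nat.sqrt m, by rw [← sq, e1]⟩
  have h3 : ∑ j ∈ J, hh k j ≤ ∏ p ∈ (N0 + 1).primesBelow, ∑' n : ℕ, hh k (p ^ n) := by
    rw [← sum_subtype_of_mem (fun j => hh k j) hJs]
    exact sum_le_hasSum _ (fun j _ => hh_nonneg k _) hE2
  have h4 : ∏ p ∈ (N0 + 1).primesBelow, ∑' n : ℕ, hh k (p ^ n) ≤
      ∏ p ∈ (N0 + 1).primesBelow, Real.exp ((K : ℝ) * (1 / p) + D * (1 / (p : ℝ) ^ 2)) := by
    refine prod_le_prod (fun p _ => tsum_nonneg fun i => hh_nonneg k _) fun p hp => ?_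
    have hp' := (Nat.mem_primesBelow.1 hp).2
    refine (hh_tsum k hk hp').trans ?_
    rw [← hK, ← hD]
    have := Real.add_one_le_exp ((K : ℝ) * (1 / p) + D * (1 / (p : ℝ) ^ 2))
    refine le_trans (le_of_eq ?_) this
    ring
  have h5 : ∏ p ∈ (N0 + 1).primesBelow, Real.exp ((K : ℝ) * (1 / p) + D * (1 / (p : ℝ) ^ 2)) ≤
      Real.exp (K * C1 + D * S) * (1 + Real.log N0) ^ K := by
    rw [← Real.exp_sum, sum_add_distrib, ← mul_sum, ← mul_sum]
    have e1 : (1 + Real.log N0) ^ K = Real.exp (K * Real.log (1 + Real.log N0)) := by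
      rw [mul_comm, Real.exp_mul, Real.exp_log (by linarith), Real.rpow_natCast]
    rw [e1, ← Real.exp_add]
    apply Real.exp_le_exp.2
    have e2 := mul_le_mul_of_nonneg_left (hC1 N0 hN0) (Nat.cast_nonneg (α := ℝ) K)
    have e3 : ∑ p ∈ (N0 + 1).primesBelow, 1 / (p : ℝ) ^ 2 ≤ S := by
      rw [hS]
      exact hs.sum_le_tsum _ fun n _ => by positivity
    have e4 := mul_le_mul_of_nonneg_left e3 hD0
    linarith
  rw [h2] at h1
  exact h1.trans (h3.trans (h4.trans h5))

end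

end Pool.Agent.Q177.MB
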